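import Mathlib

/-!
# The fractional minimal rank is not always attained

Over a field with an element `q` of infinite multiplicative order there is a `7 × 9` partial
matrix whose minimal rank completions of size `b` and rank `4 b` are the pairs of invertible
`b × b` matrices `X, Y` with `X Y = q Y X`; there are none, but up to a matrix of rank one there
are some for every `b`.
-/

set_option autoImplicit false
set_option linter.unusedSectionVars false

namespace Pool.Agent.Results.MP_3569d7_al.NotAttained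

open Matrix

variable {F : Type*} [Field F] {m n : Type*} [Fintype m] [Fintype n]

/-- `M` is a completion of the partial matrix `A` (unspecified entries are `none`). -/
def IsCompletion (A : Matrix m n (Option F)) (M : Matrix m n F) : Prop :=
  ∀ i j a, A i j = some a → M i j = a

/-- The minimal rank of a completion. -/
noncomputable def mr (A : Matrix m n (Option F)) : ℕ :=
  sInf {r | ∃ M : Matrix m n F, IsCompletion A M ∧ M.rank = r}

/-- The partial matrix `A ⊗ I_b`: the `(i, j)` block is `a I_b` if `A i j` is specified with value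
`a`, and an unspecified block otherwise. -/
def tensorId (A : Matrix m n (Option F)) (b : ℕ) : Matrix (m × Fin b) (n × Fin b) (Option F) :=
  fun p r => (A p.1 r.1).map fun a => if p.2 = r.2 then a else 0

/-- The fractional minimal rank. -/
noncomputable def fmr (A : Matrix m n (Option F)) : ℝ :=
  ⨅ b : ℕ+, (mr (tensorId A b) : ℝ) / (b : ℕ)

/-! ### Rank and Schur complement -/

section Rank

variable {k l p : Type*} [Fintype k] [DecidableEq k] [Fintype l] [Fintype p]

/-- If `[1, B; C, D]` has rank at most the size of the identity block, then `D = C B`. -/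
lemma eq_mul_of_rank_le (B : Matrix k l F) (C : Matrix p k F) (D : Matrix p l F)
    (h : (fromBlocks 1 B C D).rank ≤ Fintype.card k) : D = C * B := by
  classical
  set N : Matrix (k ⊕ p) k F := fromRows 1 C with hN
  have hinj : Function.Injective N.mulVecLin := by
    rw [← LinearMap.ker_eq_bot, LinearMap.ker_eq_bot']
    intro v hv
    have h1 : N *ᵥ v = 0 := hv
    ext i
    have := congrFun h1 (Sum.inl i)
    simpa [hN, fromRows_mulVec] using this
  have hrank : Module.finrank F (LinearMap.range N.mulVecLin) = Fintype.card k := by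
    rw [LinearMap.finrank_range_of_inj hinj, Module.finrank_fintype_fun_eq_card]
  have hle : LinearMap.range N.mulVecLin ≤ LinearMap.range (fromBlocks 1 B C D).mulVecLin := by
    rintro _ ⟨v, rfl⟩
    refine ⟨Sum.elim v 0, ?_⟩
    simp only [mulVecLin_apply, hN, fromRows_mulVec, fromBlocks_mulVec]
    simp
  have heq : LinearMap.range N.mulVecLin = LinearMap.range (fromBlocks 1 B C D).mulVecLin :=
    Submodule.eq_of_le_of_finrank_le hle (by rw [hrank]; exact h)
  apply Matrix.mulVec_injective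
  ext w i
  have hcol : (fromBlocks 1 B C D) *ᵥ (Sum.elim 0 w) ∈ LinearMap.range N.mulVecLin := by
    rw [heq]
    exact ⟨_, rfl⟩
  obtain ⟨t, ht⟩ := hcol
  simp only [mulVecLin_apply, hN, fromRows_mulVec, fromBlocks_mulVec] at ht
  have h1 : t = B *ᵥ w := by
    ext a
    have := congrFun ht (Sum.inl a)
    simpa using this
  have h2 := congrFun ht (Sum.inr i)
  simp only [Sum.elim_inr, h1, mulVec_mulVec] at h2
  simpa using h2.symm

lemma card_le_rank (B : Matrix k l F) (C : Matrix p k F) (D : Matrix p l F) :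
    Fintype.card k ≤ (fromBlocks 1 B C D).rank := by
  classical
  set N : Matrix (k ⊕ p) k F := fromRows 1 C with hN
  have hinj : Function.Injective N.mulVecLin := by
    rw [← LinearMap.ker_eq_bot, LinearMap.ker_eq_bot']
    intro v hv
    have h1 : N *ᵥ v = 0 := hv
    ext i
    have := congrFun h1 (Sum.inl i)
    simpa [hN, fromRows_mulVec] using this
  have hrank : Module.finrank F (LinearMap.range N.mulVecLin) = Fintype.card k := by
    rw [LinearMap.finrank_range_of_inj hinj, Module.finrank_fintype_fun_eq_card]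
  have hle : LinearMap.range N.mulVecLin ≤ LinearMap.range (fromBlocks 1 B C D).mulVecLin := by
    rintro _ ⟨v, rfl⟩
    refine ⟨Sum.elim v 0, ?_⟩
    simp only [mulVecLin_apply, hN, fromRows_mulVec, fromBlocks_mulVec]
    simp
  rw [← hrank]
  exact Submodule.finrank_mono hle

omit [Fintype k] [DecidableEq k] [Fintype p] in
lemma rank_add_le (A B : Matrix p l F) : (A + B).rank ≤ A.rank + B.rank := by
  have h1 : LinearMap.range (A + B).mulVecLin ≤
      LinearMap.range A.mulVecLin ⊔ LinearMap.range B.mulVecLin := by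
    rintro _ ⟨v, rfl⟩
    rw [mulVecLin_apply, add_mulVec]
    exact Submodule.add_mem_sup ⟨v, rfl⟩ ⟨v, rfl⟩
  exact (Submodule.finrank_mono h1).trans (Submodule.finrank_add_le_finrank_add_finrank _ _)

/-- `[1, B; C, C B + x yᵀ]` has rank at most the size of the identity block plus one. -/
lemma rank_le_succ (B : Matrix k l F) (C : Matrix p k F) (x : p → F) (y : l → F) :
    (fromBlocks 1 B C (C * B + vecMulVec x y)).rank ≤ Fintype.card k + 1 := by
  have h1 : fromBlocks 1 B C (C * B + vecMulVec x y) =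
      fromRows 1 C * fromCols 1 B + vecMulVec (Sum.elim 0 x) (Sum.elim 0 y) := by
    rw [fromRows_mul_fromCols]
    ext (i | i) (j | j) <;> simp [vecMulVec_apply]
  rw [h1]
  refine (rank_add_le _ _).trans (add_le_add ?_ (rank_vecMulVec_le _ _))
  exact (rank_mul_le_left _ _).trans (rank_le_card_width _)

end Rank

/-! ### The partial matrix -/

/-- The partial matrix. -/
def pm (q : F) : Matrix (Fin 7) (Fin 9) (Option F) :=
  !![some 1, some 0, some 0, some 0, none, some (-1), some 0, none, some 0;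
    some 0, some 1, some 0, some 0, none, some 0, some 1, some 0, none;
    some 0, some 0, some 1, some 0, some 1, some 1, some 1, some 0, some 0;
    some 0, some 0, some 0, some 1, some 0, none, none, some 0, some 0;
    none, none, some 0, some 1, some 0, some 0, some 0, some 1, some 1;
    some 0, some 1, none, some 1, some 0, some 0, none, none, none;
    some q, some 0, none, some 1, some 0, none, some 0, none, none]

/-- The rows: the first four and the other three. -/
def eR (b : ℕ) : (Fin 4 × Fin b) ⊕ (Fin 3 × Fin b) ≃ Fin 7 × Fin b :=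
  (Equiv.sumProdDistrib _ _ _).symm.trans (Equiv.prodCongr finSumFinEquiv (Equiv.refl _))

/-- The columns: the first four and the other five. -/
def eC (b : ℕ) : (Fin 4 × Fin b) ⊕ (Fin 5 × Fin b) ≃ Fin 9 × Fin b :=
  (Equiv.sumProdDistrib _ _ _).symm.trans (Equiv.prodCongr finSumFinEquiv (Equiv.refl _))

/-- The `(i, j)` block of a block matrix. -/
def blk {I J : Type*} {b : ℕ} (M : Matrix (I × Fin b) (J × Fin b) F) (i : I) (j : J) :
    Matrix (Fin b) (Fin b) F :=
  Matrix.of fun k l => M (i, k) (j, l)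

lemma blk_mul {I J L : Type*} [Fintype J] {b : ℕ} (M : Matrix (I × Fin b) (J × Fin b) F)
    (N : Matrix (J × Fin b) (L × Fin b) F) (i : I) (j : L) :
    blk (M * N) i j = ∑ k, blk M i k * blk N k j := by
  ext a c
  rw [Matrix.sum_apply]
  simp [blk, mul_apply, Fintype.sum_prod_type]

/-- In a completion the specified blocks are scalar. -/
lemma blk_completion {m n : Type*} [Fintype m] [Fintype n] {A : Matrix m n (Option F)} {b : ℕ}
    {M : Matrix (m × Fin b) (n × Fin b) F} (hM : IsCompletion (tensorId A b) M) {i : m} {j : n}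
    {a : F} (h : A i j = some a) : blk M i j = a • (1 : Matrix (Fin b) (Fin b) F) := by
  ext k l
  rw [blk, of_apply, hM (i, k) (j, l) (if k = l then a else 0) (by simp [tensorId, h])]
  simp [one_apply]

lemma toBlocks₁₁_eq {b : ℕ} {q : F} {M : Matrix (Fin 7 × Fin b) (Fin 9 × Fin b) F}
    (hM : IsCompletion (tensorId (pm q) b) M) : (M.submatrix (eR b) (eC b)).toBlocks₁₁ = 1 := by
  ext ⟨i, k⟩ ⟨j, l⟩
  have h : pm q (Fin.castAdd 3 i) (Fin.castAdd 5 j) = some (if i = j then 1 else 0) := by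
    fin_cases i <;> fin_cases j <;> rfl
  have h1 := hM (Fin.castAdd 3 i, k) (Fin.castAdd 5 j, l)
    (if k = l then (if i = j then 1 else 0) else 0) (by simp [tensorId, h])
  have h2 : (M.submatrix (eR b) (eC b)).toBlocks₁₁ (i, k) (j, l) =
      M (Fin.castAdd 3 i, k) (Fin.castAdd 5 j, l) := rfl
  rw [h2, h1, one_apply]
  simp only [Prod.mk.injEq]
  split_ifs <;> simp_all

/-- A completion has rank at least `4 b`, and if the rank is `4 b` then the lower right block is
determined. -/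
lemma rank_ge {b : ℕ} {q : F} {M : Matrix (Fin 7 × Fin b) (Fin 9 × Fin b) F}
    (hM : IsCompletion (tensorId (pm q) b) M) : 4 * b ≤ M.rank := by
  have h1 := card_le_rank (M.submatrix (eR b) (eC b)).toBlocks₁₂
    (M.submatrix (eR b) (eC b)).toBlocks₂₁ (M.submatrix (eR b) (eC b)).toBlocks₂₂
  rw [← toBlocks₁₁_eq hM, fromBlocks_toBlocks, rank_submatrix] at h1
  simpa using h1

lemma blk_eq {b : ℕ} {q : F} {M : Matrix (Fin 7 × Fin b) (Fin 9 × Fin b) F}
    (hM : IsCompletion (tensorId (pm q) b) M) (hr : M.rank ≤ 4 * b) (i : Fin 3) (j : Fin 5) :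
    blk M (Fin.natAdd 4 i) (Fin.natAdd 4 j) = ∑ k : Fin 4,
      blk M (Fin.natAdd 4 i) (Fin.castAdd 5 k) * blk M (Fin.castAdd 3 k) (Fin.natAdd 4 j) := by
  have h1 := eq_mul_of_rank_le (M.submatrix (eR b) (eC b)).toBlocks₁₂
    (M.submatrix (eR b) (eC b)).toBlocks₂₁ (M.submatrix (eR b) (eC b)).toBlocks₂₂
    (by
      rw [← toBlocks₁₁_eq hM, fromBlocks_toBlocks, rank_submatrix]
      simpa using hr)
  have h2 := congrArg (fun N => blk N i j) h1
  simp only [blk_mul] at h2
  exact h2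

/-- There is no completion of rank `4 b`. -/
lemma no_completion {b : ℕ} (hb : 1 ≤ b) {q : F} (hq : ∀ n : ℕ, 1 ≤ n → q ^ n ≠ 1)
    {M : Matrix (Fin 7 × Fin b) (Fin 9 × Fin b) F}
    (hM : IsCompletion (tensorId (pm q) b) M) : ¬ M.rank ≤ 4 * b := by
  intro hr
  have h := blk_eq hM hr
  have hs : ∀ i j a, pm q i j = some a → blk M i j = a • (1 : Matrix (Fin b) (Fin b) F) :=
    fun i j a => blk_completion hM
  -- the equations
  have e44 := h 0 0
  have e45 := h 0 1
  have e46 := h 0 2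
  have e47 := h 0 3
  have e48 := h 0 4
  have e54 := h 1 0
  have e55 := h 1 1
  have e64 := h 2 0
  have e66 := h 2 2
  rw [Fin.sum_univ_four] at e44 e45 e46 e47 e48 e54 e55 e64 e66
  change blk M 4 4 = blk M 4 0 * blk M 0 4 + blk M 4 1 * blk M 1 4 + blk M 4 2 * blk M 2 4 +
    blk M 4 3 * blk M 3 4 at e44
  change blk M 4 5 = blk M 4 0 * blk M 0 5 + blk M 4 1 * blk M 1 5 + blk M 4 2 * blk M 2 5 +
    blk M 4 3 * blk M 3 5 at e45
  change blk M 4 6 = blk M 4 0 * blk M 0 6 + blk M 4 1 * blk M 1 6 + blk M 4 2 * blk M 2 6 +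
    blk M 4 3 * blk M 3 6 at e46
  change blk M 4 7 = blk M 4 0 * blk M 0 7 + blk M 4 1 * blk M 1 7 + blk M 4 2 * blk M 2 7 +
    blk M 4 3 * blk M 3 7 at e47
  change blk M 4 8 = blk M 4 0 * blk M 0 8 + blk M 4 1 * blk M 1 8 + blk M 4 2 * blk M 2 8 +
    blk M 4 3 * blk M 3 8 at e48
  change blk M 5 4 = blk M 5 0 * blk M 0 4 + blk M 5 1 * blk M 1 4 + blk M 5 2 * blk M 2 4 +
    blk M 5 3 * blk M 3 4 at e54
  change blk M 5 5 = blk M 5 0 * blk M 0 5 + blk M 5 1 * blk M 1 5 + blk M 5 2 * blk M 2 5 +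
    blk M 5 3 * blk M 3 5 at e55
  change blk M 6 4 = blk M 6 0 * blk M 0 4 + blk M 6 1 * blk M 1 4 + blk M 6 2 * blk M 2 4 +
    blk M 6 3 * blk M 3 4 at e64
  change blk M 6 6 = blk M 6 0 * blk M 0 6 + blk M 6 1 * blk M 1 6 + blk M 6 2 * blk M 2 6 +
    blk M 6 3 * blk M 3 6 at e66
  rw [hs 4 4 0 rfl, hs 4 2 0 rfl, hs 2 4 1 rfl, hs 4 3 1 rfl, hs 3 4 0 rfl] at e44
  rw [hs 4 5 0 rfl, hs 0 5 (-1) rfl, hs 1 5 0 rfl, hs 4 2 0 rfl, hs 2 5 1 rfl,
    hs 4 3 1 rfl] at e45
  rw [hs 4 6 0 rfl, hs 0 6 0 rfl, hs 1 6 1 rfl, hs 4 2 0 rfl, hs 2 6 1 rfl,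
    hs 4 3 1 rfl] at e46
  rw [hs 4 7 1 rfl, hs 1 7 0 rfl, hs 4 2 0 rfl, hs 2 7 0 rfl, hs 4 3 1 rfl, hs 3 7 0 rfl] at e47
  rw [hs 4 8 1 rfl, hs 0 8 0 rfl, hs 4 2 0 rfl, hs 2 8 0 rfl, hs 4 3 1 rfl, hs 3 8 0 rfl] at e48
  rw [hs 5 4 0 rfl, hs 5 0 0 rfl, hs 5 1 1 rfl, hs 2 4 1 rfl, hs 5 3 1 rfl, hs 3 4 0 rfl] at e54
  rw [hs 5 5 0 rfl, hs 5 0 0 rfl, hs 0 5 (-1) rfl, hs 5 1 1 rfl, hs 1 5 0 rfl, hs 2 5 1 rfl,
    hs 5 3 1 rfl] at e55
  rw [hs 6 4 0 rfl, hs 6 0 q rfl, hs 6 1 0 rfl, hs 2 4 1 rfl, hs 6 3 1 rfl, hs 3 4 0 rfl] at e64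
  rw [hs 6 6 0 rfl, hs 6 0 q rfl, hs 0 6 0 rfl, hs 6 1 0 rfl, hs 1 6 1 rfl, hs 2 6 1 rfl,
    hs 6 3 1 rfl] at e66
  simp only [zero_smul, one_smul, neg_smul, mul_one, one_mul, mul_zero, zero_mul, add_zero,
    zero_add, mul_neg, neg_zero, Matrix.smul_mul] at e44 e45 e46 e47 e48 e54 e55 e64 e66
  have hV2 : blk M 1 4 = blk M 4 0 := by
    rw [eq_neg_of_add_eq_zero_left e54.symm, eq_neg_of_add_eq_zero_left e55.symm, neg_neg]
    exact (neg_add_eq_zero.1 e45.symm).symm
  have hU2 : blk M 4 1 = -(q • blk M 0 4) := by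
    rw [eq_neg_of_add_eq_zero_left e46.symm, eq_neg_of_add_eq_zero_right e66.symm, neg_neg,
      eq_neg_of_add_eq_zero_right e64.symm]
  have hd1 : (blk M 4 0).det ≠ 0 := by
    intro h0
    have h1 := congrArg Matrix.det e47
    rw [det_one, det_mul, h0, zero_mul] at h1
    exact one_ne_zero h1
  have hd2 : (blk M 0 4).det ≠ 0 := by
    intro h0
    have h1 := congrArg Matrix.det e48
    rw [det_one, det_mul, hU2, det_neg, det_smul, h0, mul_zero, mul_zero, zero_mul] at h1
    exact one_ne_zero h1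
  have h2 : blk M 4 0 * blk M 0 4 = q • (blk M 0 4 * blk M 4 0) := by
    rw [hV2, hU2, Matrix.neg_mul, Matrix.smul_mul, ← sub_eq_add_neg] at e44
    exact sub_eq_zero.1 e44.symm
  have h3 := congrArg Matrix.det h2
  rw [det_mul, det_smul, det_mul, Fintype.card_fin] at h3
  apply hq b hb
  have h4 : (q ^ b - 1) * ((blk M 0 4).det * (blk M 4 0).det) = 0 := by
    linear_combination -h3
  rcases mul_eq_zero.1 h4 with h | h
  · exact sub_eq_zero.1 h
  · exact absurd h (mul_ne_zero hd2 hd1)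

/-! ### Completions of rank `4 b + 1` -/

section Upper

variable (q : F) (b : ℕ)

/-- `diag(1, q, …, q ^ b)` -/
def Xm : Matrix (Fin (b + 1)) (Fin (b + 1)) F := diagonal fun i => q ^ (i : ℕ)

/-- `diag(1, q⁻¹, …, q ^ (-b))` -/
def Xi : Matrix (Fin (b + 1)) (Fin (b + 1)) F := diagonal fun i => (q ^ (i : ℕ))⁻¹

variable (F) in
/-- the cyclic shift -/
def Ym : Matrix (Fin (b + 1)) (Fin (b + 1)) F := Matrix.of fun i j => if i = j + 1 then 1 else 0

variable (F) in
/-- the inverse of the cyclic shift -/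
def Yi : Matrix (Fin (b + 1)) (Fin (b + 1)) F := Matrix.of fun i j => if j = i + 1 then 1 else 0

lemma Xm_mul_Xi (hq : q ≠ 0) : Xm q b * Xi q b = 1 := by
  rw [Xm, Xi, diagonal_mul_diagonal, ← diagonal_one]
  congr 1
  ext i
  exact mul_inv_cancel₀ (pow_ne_zero _ hq)

lemma Ym_mul_Yi : Ym F b * Yi F b = 1 := by
  ext i j
  simp only [Ym, Yi, mul_apply, of_apply, one_apply, mul_ite, mul_one, mul_zero]
  rw [Finset.sum_eq_single (i - 1)]
  · simp only [sub_add_cancel, if_true]
    simp [eq_comm]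
  · intro k _ hk
    have : i ≠ k + 1 := fun h => hk (by rw [h, add_sub_cancel_right])
    simp [this]
  · simp

/-- the rank one defect -/
def defect : Matrix (Fin (b + 1)) (Fin (b + 1)) F :=
  vecMulVec (Pi.single 0 (q ^ (b + 1) - 1)) (Pi.single (Fin.last b) 1)

lemma commutation : Xm q b * Ym F b - q • (Ym F b * Xm q b) + defect q b = 0 := by
  ext i j
  rw [Matrix.add_apply, Matrix.sub_apply, Matrix.smul_apply, Xm, diagonal_mul, mul_diagonal,
    defect, vecMulVec_apply]
  simp only [Ym, of_apply, Matrix.zero_apply, smul_eq_mul, Pi.single_apply, mul_ite, mul_one,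
    mul_zero, ite_mul, one_mul, zero_mul]
  by_cases hj : j = Fin.last b
  · subst hj
    simp only [Fin.last_add_one, if_true]
    by_cases hi : i = 0
    · subst hi
      simp only [if_true, Fin.val_zero, pow_zero, Fin.val_last]
      ring
    · simp [hi]
  · simp only [hj, if_false, add_zero]
    by_cases hi : i = j + 1
    · subst hi
      simp only [if_true]
      rw [Fin.val_add_one_of_lt (Fin.lt_last_iff_ne_last.2 hj), pow_succ]
      ring
    · simp [hi]

/-- The upper right blocks. -/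
def Bblk : Matrix (Fin 4) (Fin 5) (Matrix (Fin (b + 1)) (Fin (b + 1)) F) :=
  !![Ym F b, -1, 0, Xi q b, 0;
    Xm q b, 0, 1, 0, -(q⁻¹ • Yi F b);
    1, 1, 1, 0, 0;
    0, Xm q b, q • Ym F b, 0, 0]

/-- The lower left blocks. -/
def Cblk : Matrix (Fin 3) (Fin 4) (Matrix (Fin (b + 1)) (Fin (b + 1)) F) :=
  !![Xm q b, -(q • Ym F b), 0, 1;
    0, 1, -Xm q b, 1;
    q • 1, 0, -(q • Ym F b), 1]

/-- The matrix with given blocks. -/
def ofBlk {I J : Type*} {b : ℕ} (N : Matrix I J (Matrix (Fin b) (Fin b) F)) :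
    Matrix (I × Fin b) (J × Fin b) F :=
  Matrix.of fun p r => N p.1 r.1 p.2 r.2

lemma blk_ofBlk {I J : Type*} {b : ℕ} (N : Matrix I J (Matrix (Fin b) (Fin b) F)) (i : I) (j : J) :
    blk (ofBlk N) i j = N i j := rfl

/-- The completion, in block form. -/
def compl : Matrix ((Fin 4 × Fin (b + 1)) ⊕ (Fin 3 × Fin (b + 1)))
    ((Fin 4 × Fin (b + 1)) ⊕ (Fin 5 × Fin (b + 1))) F :=
  fromBlocks 1 (ofBlk (Bblk q b)) (ofBlk (Cblk q b))
    (ofBlk (Cblk q b) * ofBlk (Bblk q b) +
      vecMulVec (fun p => if p.1 = 0 then (Pi.single 0 (q ^ (b + 1) - 1) : Fin (b + 1) → F) p.2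
        else 0) (fun p => if p.1 = 0 then (Pi.single (Fin.last b) 1 : Fin (b + 1) → F) p.2 else 0))

lemma rank_compl : (compl q b).rank ≤ 4 * (b + 1) + 1 := by
  refine (rank_le_succ _ _ _ _).trans ?_
  simp

lemma blk_compl₂₂ (i : Fin 3) (j : Fin 5) : blk (compl q b).toBlocks₂₂ i j =
    ∑ k, Cblk q b i k * Bblk q b k j + if i = 0 ∧ j = 0 then defect q b else 0 := by
  rw [compl, toBlocks_fromBlocks₂₂]
  ext k l
  have h1 : blk (ofBlk (Cblk q b) * ofBlk (Bblk q b)) i j = ∑ k, Cblk q b i k * Bblk q b k j :=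
    blk_mul _ _ i j
  rw [← h1, Matrix.add_apply, blk, of_apply, Matrix.add_apply]
  refine congrArg₂ (· + ·) rfl ?_
  rw [vecMulVec_apply]
  by_cases hi : i = 0
  · by_cases hj : j = 0
    · simp [hi, hj, defect, vecMulVec_apply]
    · simp [hi, hj]
  · simp [hi]

lemma isCompletion (hq : q ≠ 0) :
    IsCompletion (tensorId (pm q) (b + 1))
      ((compl q b).submatrix (eR (b + 1)).symm (eC (b + 1)).symm) := by
  rintro ⟨i, k⟩ ⟨j, l⟩ a h
  rw [tensorId, Option.map_eq_some_iff] at h
  obtain ⟨a, h, rfl⟩ := h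
  dsimp only at h ⊢
  suffices hb : blk ((compl q b).submatrix (eR (b + 1)).symm (eC (b + 1)).symm) i j =
      a • (1 : Matrix (Fin (b + 1)) (Fin (b + 1)) F) by
    have := congrFun (congrFun hb k) l
    rw [Matrix.smul_apply, one_apply] at this
    simpa [blk] using this
  clear k l
  set M := (compl q b).submatrix (eR (b + 1)).symm (eC (b + 1)).symm with hM
  have hR1 : ∀ (i : Fin 4) k, (eR (b + 1)).symm (Fin.castAdd 3 i, k) = Sum.inl (i, k) := by
    intro i k
    rw [Equiv.symm_apply_eq]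
    rfl
  have hR2 : ∀ (i : Fin 3) k, (eR (b + 1)).symm (Fin.natAdd 4 i, k) = Sum.inr (i, k) := by
    intro i k
    rw [Equiv.symm_apply_eq]
    rfl
  have hC1 : ∀ (i : Fin 4) k, (eC (b + 1)).symm (Fin.castAdd 5 i, k) = Sum.inl (i, k) := by
    intro i k
    rw [Equiv.symm_apply_eq]
    rfl
  have hC2 : ∀ (i : Fin 5) k, (eC (b + 1)).symm (Fin.natAdd 4 i, k) = Sum.inr (i, k) := by
    intro i k
    rw [Equiv.symm_apply_eq]
    rfl
  have h11 : ∀ (i j : Fin 4), blk M (Fin.castAdd 3 i) (Fin.castAdd 5 j) =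
      if i = j then 1 else 0 := by
    intro i j
    ext k l
    simp only [hM, blk, of_apply, submatrix_apply, hR1, hC1, compl, fromBlocks_apply₁₁]
    by_cases hij : i = j
    · subst hij
      simp [one_apply]
    · simp [one_apply, hij]
  have h12 : ∀ (i : Fin 4) (j : Fin 5), blk M (Fin.castAdd 3 i) (Fin.natAdd 4 j) =
      Bblk q b i j := by
    intro i j
    ext k l
    simp only [hM, blk, of_apply, submatrix_apply, hR1, hC2, compl, fromBlocks_apply₁₂, ofBlk]
  have h21 : ∀ (i : Fin 3) (j : Fin 4), blk M (Fin.natAdd 4 i) (Fin.castAdd 5 j) =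
      Cblk q b i j := by
    intro i j
    ext k l
    simp only [hM, blk, of_apply, submatrix_apply, hR2, hC1, compl, fromBlocks_apply₂₁, ofBlk]
  have h22 : ∀ (i : Fin 3) (j : Fin 5), blk M (Fin.natAdd 4 i) (Fin.natAdd 4 j) =
      ∑ k, Cblk q b i k * Bblk q b k j + if i = 0 ∧ j = 0 then defect q b else 0 := by
    intro i j
    rw [← blk_compl₂₂]
    ext k l
    simp only [hM, blk, of_apply, submatrix_apply, hR2, hC2, toBlocks₂₂]
  have hX := Xm_mul_Xi q b hq
  have hY := Ym_mul_Yi (F := F) b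
  have hc := commutation q b
  revert h
  revert i j
  intro i
  refine Fin.addCases (m := 4) (n := 3) (fun i => ?_) (fun i => ?_) i <;> intro j <;>
    refine Fin.addCases (m := 4) (n := 5) (fun j => ?_) (fun j => ?_) j <;> intro h
  · rw [h11]
    fin_cases i <;> fin_cases j <;> cases h <;> simp
  · rw [h12]
    fin_cases i <;> fin_cases j <;> cases h <;> simp [Bblk]
  · rw [h21]
    fin_cases i <;> fin_cases j <;> cases h <;> simp [Cblk]
  · rw [h22, Fin.sum_univ_four]
    fin_cases i <;> fin_cases j <;> cases h <;> simp [Bblk, Cblk]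
    · rw [← sub_eq_add_neg]
      exact hc
    · exact hX
    · rw [hY, smul_smul, inv_mul_cancel₀ hq, one_smul]

end Upper

lemma mr_eq {q : F} (hq0 : q ≠ 0) (hq : ∀ n : ℕ, 1 ≤ n → q ^ n ≠ 1) {b : ℕ} (hb : 1 ≤ b) :
    mr (tensorId (pm q) b) = 4 * b + 1 := by
  obtain ⟨b, rfl⟩ : ∃ c, b = c + 1 := ⟨b - 1, by omega⟩
  have hmem := isCompletion q b hq0
  have hrank : ((compl q b).submatrix (eR (b + 1)).symm (eC (b + 1)).symm).rank ≤
      4 * (b + 1) + 1 := by
    rw [rank_submatrix]
    exact rank_compl q b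
  apply le_antisymm
  · have hle : mr (tensorId (pm q) (b + 1)) ≤
        ((compl q b).submatrix (eR (b + 1)).symm (eC (b + 1)).symm).rank :=
      Nat.sInf_le (show _ ∈ {r | ∃ M : Matrix (Fin 7 × Fin (b + 1)) (Fin 9 × Fin (b + 1)) F,
        IsCompletion (tensorId (pm q) (b + 1)) M ∧ M.rank = r} from ⟨_, hmem, rfl⟩)
    exact hle.trans hrank
  · have hne : {r | ∃ M : Matrix (Fin 7 × Fin (b + 1)) (Fin 9 × Fin (b + 1)) F,
        IsCompletion (tensorId (pm q) (b + 1)) M ∧ M.rank = r}.Nonempty := ⟨_, _, hmem, rfl⟩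
    obtain ⟨M, hM, hr⟩ := Nat.sInf_mem hne
    rw [mr, ← hr]
    have := no_completion hb hq hM
    omega

/-- Let `F` be a field with a nonzero element `q` which is not a root of unity.  Then there is a
partial matrix `A` over `F` such that the infimum defining `fmr A` is not attained:
`mr_b(A) / b > fmr(A)` for every `b ≥ 1`. -/
theorem result (F : Type*) [Field F] (q : F) (hq0 : q ≠ 0) (hq : ∀ n : ℕ, 1 ≤ n → q ^ n ≠ 1) :
    ∃ (m n : ℕ) (A : Matrix (Fin m) (Fin n) (Option F)),
      ∀ b : ℕ, 1 ≤ b → fmr A < (mr (tensorId A b) : ℝ) / b := by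
  refine ⟨7, 9, pm q, fun b hb => ?_⟩
  have hbdd : BddBelow (Set.range fun b : ℕ+ => (mr (tensorId (pm q) b) : ℝ) / (b : ℕ)) :=
    ⟨0, by rintro _ ⟨c, rfl⟩; positivity⟩
  obtain ⟨c, hc⟩ : ∃ c : ℕ+, (c : ℕ) = 2 * b := ⟨(2 * b).toPNat (by omega), rfl⟩
  have h1 := ciInf_le hbdd c
  refine lt_of_le_of_lt h1 ?_
  rw [hc, mr_eq hq0 hq hb, mr_eq hq0 hq (b := 2 * b) (by omega)]
  have hb' : (0 : ℝ) < b := by exact_mod_cast hb
  push_cast
  rw [div_lt_div_iff₀ (by positivity) hb']
  nlinarith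

end Pool.Agent.Results.MP_3569d7_al.NotAttained
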